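import Pool.Agent.Helper14.MS.KeyS
import Pool.Agent.Helper12.MS.Fix
import Pool.Agent.Helper83.MS.FAeq
import Pool.Agent.Helper31.MS.StepD
import Pool.Agent.Helper31.MS.NumS

/-!
# The final induction, over the blocks which are left
-/

set_option autoImplicit false
set_option linter.unusedSectionVars false

namespace Pool.Agent.Helper38.MS

open FirstOrder Pool.Agent.Helper20.Spectra Pool.Agent.Helper31.QD Pool.Agent.Helper38.MC
  Pool.Agent.Helper58.QD Pool.Agent.Helper40.MC Pool.Agent.Helper6.MC Pool.Agent.Helper6.EA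
open Pool.Agent.Helper12.EK (Gr Ball Cmp)

theorem stmtFAeq : StmtFAeq := fun _ _ c e G A => FA_eq c e G A

theorem stmtFAempty : StmtFAempty := fun _ _ c e G => FA_empty c e G

theorem stmtFix : StmtFix := fun _ _ c e G A _ hs => fix_le c e G A hs

theorem stmtStepD (r : ℕ) : StmtStepD r := by
  intro S ar har V _ _ R s s' q l M₀ hq hs hl hM h1
  exact stepD har R hq hs hl hM h1

theorem stmtNumS (r c a e : ℕ) : StmtNumS r c a e := numS r c a e

theorem keyS_of2 (hAu : StmtAuGRel) (hNo : StmtNoBigRel)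
    (hOr : StmtOrbRel) (r c a e : ℕ) (ha : 1 ≤ a) (he : 1 ≤ e)
    (hPeel : StmtPeelAll r c a e) : ∃ K : ℕ, ∀ (S : Type) (ar : S → ℕ), (∀ s, ar s ≤ r) → ∀ (n : ℕ)
    (R : Interp S ar (Fin n)), NoBig R c a e → Nat.card (AuG R) ≤ K ^ n :=
  keyS_of stmtFAempty stmtFix stmtFAeq hAu hNo hOr r c a e ha he (stmtStepD r) (stmtNumS r c a e) hPeel

end Pool.Agent.Helper38.MS
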