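import Pool.Agent.Helper38.MS.Defs

/-!
# The final induction
-/

set_option autoImplicit false
set_option linter.unusedSectionVars false

namespace Pool.Agent.Helper38.MS

open FirstOrder Pool.Agent.Helper20.Spectra Pool.Agent.Helper31.QD Pool.Agent.Helper38.MC
  Pool.Agent.Helper58.QD Pool.Agent.Helper40.MC Pool.Agent.Helper6.MC Pool.Agent.Helper6.EA
open Pool.Agent.Helper12.EK (Gr Ball Cmp)

/-! ### The statements of the blocks -/

def StmtFAeq : Prop := ∀ (V : Type) [Fintype V] (c e : ℕ) (G : Subgroup (Equiv.Perm V)) (A : Finset V),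
  FA c e G A = Fp c e (res G (fun x : {v : V // v ∉ A} => x.1) Subtype.val_injective)

def StmtFAempty : Prop := ∀ (V : Type) [Fintype V] (c e : ℕ) (G : Subgroup (Equiv.Perm V)), FA c e G ∅ = Fp c e G

def StmtFix : Prop := ∀ (V : Type) [Fintype V] (c e : ℕ) (G : Subgroup (Equiv.Perm V)) (A : Finset V) (s : ℕ),
  (∀ x, (orb G x).card ≤ s) → FA c e G ∅ ≤ (s * 2 ^ (c * e)) ^ A.card * FA c e G A

def StmtAuGRel : Prop := ∀ (S : Type) (ar : S → ℕ) (V : Type) [Fintype V] (W : Type) (R : Interp S ar V) (w : W → V)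
  (hw : Function.Injective w), AuG (Rel R w) = res (AuG R) w hw

def StmtNoBigRel : Prop := ∀ (S : Type) (ar : S → ℕ) (V : Type) [Fintype V] (W : Type) (R : Interp S ar V) (c a e : ℕ),
  NoBig R c a e → ∀ (w : W → V), Function.Injective w → NoBig (Rel R w) c a e

open Classical in
def StmtOrbRel : Prop := ∀ (S : Type) (ar : S → ℕ) (V : Type) [Fintype V] (R : Interp S ar V) (A : Finset V)
  (x : {v : V // v ∉ A}),
  (orb (AuG (Rel R (fun x : {v : V // v ∉ A} => x.1))) x).card ≤ (oA R A x.1).card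

def StmtStepD (r : ℕ) : Prop := ∀ (S : Type) (ar : S → ℕ), (∀ s, ar s ≤ r) → ∀ (V : Type) [Fintype V] [DecidableEq V]
  (R : Interp S ar V) (s s' q l M₀ : ℕ), 1 ≤ q → (∀ x, (orb (AuG R) x).card ≤ s) →
  s * (cB r (dE r l q r)) ^ 2 * (r * l + 1) ^ r * q * (q ^ r - 1) ^ l ≤ (q ^ r) ^ l →
  (q - 1) ^ (M₀ + 1) * q ≤ q ^ (M₀ + 1) →
  ((M₀ + 1) * (dE r l q r + 1) ^ 2) ^ (Nat.log 2 M₀ + 1) ≤ s' →
  ∃ (A : Finset V) (E : V → V → Prop), q * A.card ≤ (r * (r + 3) + 2) * Fintype.card V ∧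
    Gd r R A E r (dE r l q r) (tE r l q r) ∧
    ∀ A', A ⊆ A' → ∀ x, ((∃ a ∈ A, a ∈ Cmp E x) → (oA R A' x).card ≤ s') ∧
      ((∀ y ∈ Cmp E x, y ∉ A) → (Cmp E x).card ≤ M₀)

def StmtNumS (r c a e : ℕ) : Prop := ∃ C : ℕ, 1 ≤ C ∧ ∃ j₀, 1 ≤ j₀ ∧ ∀ j, j₀ ≤ j →
    2 ^ (2 ^ j) * (cB r (dE r (2 ^ ((r + 1) * (2 * j))) (2 ^ (2 * j)) r)) ^ 2 * (r * 2 ^ ((r + 1) * (2 * j)) + 1) ^ r * 2 ^ (2 * j) *
      ((2 ^ (2 * j)) ^ r - 1) ^ 2 ^ ((r + 1) * (2 * j)) ≤ ((2 ^ (2 * j)) ^ r) ^ 2 ^ ((r + 1) * (2 * j)) ∧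
    (2 ^ (2 * j) - 1) ^ (4 ^ (2 * j) + 1) * 2 ^ (2 * j) ≤ (2 ^ (2 * j)) ^ (4 ^ (2 * j) + 1) ∧
    ((4 ^ (2 * j) + 1) * (dE r (2 ^ ((r + 1) * (2 * j))) (2 ^ (2 * j)) r + 1) ^ 2) ^ (Nat.log 2 (4 ^ (2 * j)) + 1) ≤ 2 ^ (C * j ^ 2) ∧
    4 ^ (2 * j) * (tE r (2 ^ ((r + 1) * (2 * j))) (2 ^ (2 * j)) r + r + 4) ≤ 2 ^ (C * j ^ 2) ∧
    j ^ 2 * (a * 2 ^ (c * e * j ^ 2) + tE r (2 ^ ((r + 1) * (2 * j))) (2 ^ (2 * j)) r + 3 * r + 3) ≤ 2 ^ (C * j ^ 2)

def StmtPeelAll (r c a e : ℕ) : Prop := ∀ (S : Type) (ar : S → ℕ), (∀ s, ar s ≤ r) → ∀ (V : Type) [Fintype V]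
  [DecidableEq V] (R : Interp S ar V) (Δ T M₀ s' m : ℕ), 1 ≤ m → NoBig R c a e → ∀ (A : Finset V) (E : V → V → Prop),
  Gd r R A E r Δ T →
  (∀ A', A ⊆ A' → ∀ x, ((∃ a ∈ A, a ∈ Cmp E x) → (oA R A' x).card ≤ s') ∧
        ((∀ y ∈ Cmp E x, y ∉ A) → (Cmp E x).card ≤ M₀)) →
  M₀ * (T + r + 4) ≤ s' → m * (a * 2 ^ (c * e * m) + T + 3 * r + 3) ≤ s' → ∀ κ : ℝ, 0 ≤ κ →
  (∀ A', A ⊆ A' → (∀ x, x ∉ A' → (oA R A' x).card ≤ s') →
      Real.log (FA c e (AuG R) A') ≤ κ * (Fintype.card V - A'.card)) →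
  (∀ (t : ℕ) (w : Fin t → V) (hw : Function.Injective w), t ≤ M₀ → Real.log (Fp c e (res (AuG R) w hw)) ≤ κ * t) →
  Real.log (FA c e (AuG R) A) ≤ (κ + Real.log (a * 4 ^ e) / m) * (Fintype.card V - A.card)

/-! ### Numbers -/

lemma pow4_le14 {x : ℕ} (hx : 16 ≤ x) : x ^ 4 ≤ 2 ^ x := by
  induction x, hx using Nat.le_induction with
  | base => norm_num
  | succ x hx ih =>
    have h1 : (x + 1) ^ 4 ≤ 2 * x ^ 4 := by
      have h2 : 16 * x ^ 3 ≤ x ^ 4 := by
        calc 16 * x ^ 3 ≤ x * x ^ 3 := Nat.mul_le_mul_right _ hx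
          _ = x ^ 4 := by ring
      have h3 : 16 * x ^ 2 ≤ x ^ 3 := by
        calc 16 * x ^ 2 ≤ x * x ^ 2 := Nat.mul_le_mul_right _ hx
          _ = x ^ 3 := by ring
      have h4 : 16 * x ≤ x ^ 2 := by
        calc 16 * x ≤ x * x := Nat.mul_le_mul_right _ hx
          _ = x ^ 2 := by ring
      have h5 : (x + 1) ^ 4 = x ^ 4 + 4 * x ^ 3 + 6 * x ^ 2 + 4 * x + 1 := by ring
      omega
    rw [pow_succ 2 x]
    omega

lemma log_small14 (C : ℕ) : ∃ j₂, ∀ j, j₂ ≤ j → 2 * (Nat.log 2 (C * j ^ 2) + 1) ≤ j := by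
  refine ⟨2 * (9 * C + 16) + 2, fun j hj => ?_⟩
  obtain ⟨x, hx⟩ : ∃ x, x = j / 2 := ⟨_, rfl⟩
  have h1 : 9 * C + 16 ≤ x := by omega
  have h2 : j ≤ 3 * x := by omega
  have h3 : C * j ^ 2 < 2 ^ x := by
    calc C * j ^ 2 ≤ C * (3 * x) ^ 2 := Nat.mul_le_mul_left _ (Nat.pow_le_pow_left h2 2)
      _ = (9 * C) * x ^ 2 := by ring
      _ ≤ x * x ^ 2 := Nat.mul_le_mul_right _ (by omega)
      _ = x ^ 3 := by ring
      _ < x ^ 4 := Nat.pow_lt_pow_right (by omega) (by norm_num)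
      _ ≤ 2 ^ x := pow4_le14 (by omega)
  have h4 : Nat.log 2 (C * j ^ 2) < x := by
    rcases Nat.eq_zero_or_pos (C * j ^ 2) with h5 | h5
    · rw [h5, Nat.log_zero_right]
      omega
    · exact Nat.log_lt_of_lt_pow (by omega) h3
  omega

lemma sq_le14 {j : ℕ} (hj : 4 ≤ j) : j ^ 2 ≤ 2 ^ j := by
  induction j, hj using Nat.le_induction with
  | base => norm_num
  | succ j hj ih =>
    rw [pow_succ 2 j]
    nlinarith

/-! ### The induction -/

/-- the statement of the induction -/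
def PJ14 (r c a e : ℕ) (K₀ c₁ : ℝ) (j : ℕ) : Prop := ∀ (S : Type) (ar : S → ℕ), (∀ s, ar s ≤ r) →
  ∀ (V : Type) [Fintype V] (R : Interp S ar V), NoBig R c a e → (∀ x, (orb (AuG R) x).card ≤ 2 ^ 2 ^ j) →
    Real.log (Fp c e (AuG R)) ≤ (K₀ - c₁ / j) * Fintype.card V

lemma FA_univ14 (c e : ℕ) {V : Type} [Fintype V] (G : Subgroup (Equiv.Perm V)) : FA c e G Finset.univ ≤ 1 := by
  have h1 : (GS G Finset.univ).card ≤ 1 := by
    rw [Finset.card_le_one]
    intro g hg g' hg'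
    rw [mem_GS] at hg hg'
    exact Equiv.ext fun x => (hg.2 x (by simp)).trans (hg'.2 x (by simp)).symm
  have h2 : ocA c G Finset.univ ≤ 1 := by
    unfold ocA
    rw [Finite.card_le_one_iff_subsingleton]
    constructor
    intro x y
    induction x using Quotient.inductionOn with
    | _ f =>
      induction y using Quotient.inductionOn with
      | _ g =>
        congr 1
        apply Subtype.ext
        funext v
        rw [f.2 v (by simp), g.2 v (by simp)]
  unfold FA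
  calc _ ≤ 1 * 1 ^ e := Nat.mul_le_mul h1 (Nat.pow_le_pow_left h2 e)
    _ = 1 := by simp

lemma Fp_pos14 (c e : ℕ) {V : Type} [Finite V] (G : Subgroup (Equiv.Perm V)) : 1 ≤ Fp c e G := by
  unfold Fp
  have h1 : 0 < Nat.card G := Nat.card_pos
  exact Nat.mul_pos h1 (pow_pos (oc_pos c G) e)

lemma FA_pos14 (c e : ℕ) {V : Type} [Fintype V] (G : Subgroup (Equiv.Perm V)) (A : Finset V) : 1 ≤ FA c e G A := by
  unfold FA
  have h1 : 0 < (GS G A).card := Finset.card_pos.2 ⟨1, mem_GS.2 ⟨G.one_mem, fun _ _ => rfl⟩⟩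
  exact Nat.mul_pos h1 (pow_pos (ocA_pos c G A) e)

/-- the cost of fixing a set, logarithmically -/
lemma fixlog14 (hE : StmtFAempty) (hF : StmtFix) (c e : ℕ) {V : Type} [Fintype V] (G : Subgroup (Equiv.Perm V))
    (A : Finset V) {k : ℕ} (hs : ∀ x, (orb G x).card ≤ 2 ^ k) :
    Real.log (Fp c e G) ≤ A.card * ((k + c * e) * Real.log 2) + Real.log (FA c e G A) := by
  have h1 := hF V c e G A _ hs
  rw [hE V c e G] at h1
  have h2 : (Fp c e G : ℝ) ≤ ((2 : ℝ) ^ (k + c * e)) ^ A.card * (FA c e G A : ℝ) := by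
    rw [pow_add]
    exact_mod_cast h1
  have h3 : (0 : ℝ) < Fp c e G := by exact_mod_cast Fp_pos14 c e G
  have h4 : (0 : ℝ) < FA c e G A := by exact_mod_cast FA_pos14 c e G A
  calc Real.log (Fp c e G) ≤ Real.log (((2 : ℝ) ^ (k + c * e)) ^ A.card * (FA c e G A : ℝ)) := Real.log_le_log h3 h2
    _ = _ := by
        rw [Real.log_mul (by positivity) h4.ne', Real.log_pow, Real.log_pow]
        push_cast
        ring

lemma base14 (hE : StmtFAempty) (hF : StmtFix) (c e : ℕ) {V : Type} [Fintype V] (G : Subgroup (Equiv.Perm V))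
    {k : ℕ} (hs : ∀ x, (orb G x).card ≤ 2 ^ k) :
    Real.log (Fp c e G) ≤ ((k + c * e) * Real.log 2) * Fintype.card V := by
  have h1 := fixlog14 hE hF c e G Finset.univ hs
  have h2 : Real.log (FA c e G Finset.univ) ≤ 0 := by
    apply Real.log_nonpos (by positivity)
    exact_mod_cast FA_univ14 c e G
  rw [Finset.card_univ] at h1
  linarith

theorem keyS_of (hE : StmtFAempty) (hF : StmtFix) (hEq : StmtFAeq) (hAu : StmtAuGRel) (hNo : StmtNoBigRel)
    (hOr : StmtOrbRel) (r c a e : ℕ) (ha : 1 ≤ a) (he : 1 ≤ e) (hStep : StmtStepD r) (hNum : StmtNumS r c a e)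
    (hPeel : StmtPeelAll r c a e) : ∃ K : ℕ, ∀ (S : Type) (ar : S → ℕ), (∀ s, ar s ≤ r) → ∀ (n : ℕ)
    (R : Interp S ar (Fin n)), NoBig R c a e → Nat.card (AuG R) ≤ K ^ n := by
  obtain ⟨C, hC1, j₀, hj₀, hnum⟩ := hNum
  obtain ⟨j₂, hj₂⟩ := log_small14 C
  obtain ⟨j₁, hj₁⟩ : ∃ j₁, j₁ = j₀ + j₂ + 4 := ⟨_, rfl⟩
  obtain ⟨b, hb⟩ : ∃ b : ℝ, b = ((r * (r + 3) + 2 : ℕ) : ℝ) * (1 + c * e) := ⟨_, rfl⟩
  have hb0 : 0 ≤ b := by rw [hb]; positivity
  have hlog2 : 0 ≤ Real.log 2 := Real.log_nonneg (by norm_num)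
  have hlog21 : Real.log 2 ≤ 1 := by
    have := Real.log_two_lt_d9
    linarith
  have hla : 0 ≤ Real.log (a * 4 ^ e) := by
    apply Real.log_nonneg
    have h1 : (1 : ℝ) ≤ a := by exact_mod_cast ha
    have h2 : (1 : ℝ) ≤ 4 ^ e := one_le_pow₀ (by norm_num)
    nlinarith
  obtain ⟨c₁, hc₁⟩ : ∃ c₁ : ℝ, c₁ = b + Real.log (a * 4 ^ e) := ⟨_, rfl⟩
  have hc0 : 0 ≤ c₁ := by rw [hc₁]; positivity
  obtain ⟨K₁, hK₁⟩ : ∃ K₁ : ℝ, K₁ = (((2 ^ j₁ : ℕ) : ℝ) + c * e) * Real.log 2 := ⟨_, rfl⟩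
  have hK10 : 0 ≤ K₁ := by rw [hK₁]; positivity
  obtain ⟨K₀, hK₀⟩ : ∃ K₀ : ℝ, K₀ = K₁ + c₁ := ⟨_, rfl⟩
  have hfrac : ∀ j : ℕ, 1 ≤ j → c₁ / j ≤ c₁ := by
    intro j hj
    apply div_le_self hc0
    exact_mod_cast hj
  have main : ∀ j : ℕ, 1 ≤ j → PJ14 r c a e K₀ c₁ j := by
    intro j
    induction j using Nat.strong_induction_on with
    | _ j IH =>
      intro hj1 S ar har V _ R hNB horb
      classical
      rcases Nat.lt_or_ge j₁ j with hj | hj
      · -- the step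
        obtain ⟨n1, n2, n3, n4, n5⟩ := hnum j (by omega)
        obtain ⟨j', hj'⟩ : ∃ j', j' = Nat.log 2 (C * j ^ 2) + 1 := ⟨_, rfl⟩
        have hj'1 : 1 ≤ j' := by omega
        have hj'2 : 2 * j' ≤ j := by
          rw [hj']
          exact hj₂ j (by omega)
        have hCj : C * j ^ 2 ≤ 2 ^ j' := by
          rw [hj']
          exact (Nat.lt_pow_succ_log_self (by norm_num) _).le
        have hs' : 2 ^ (C * j ^ 2) ≤ 2 ^ 2 ^ j' := Nat.pow_le_pow_right (by norm_num) hCj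
        have hP := IH j' (by omega) hj'1
        obtain ⟨κ, hκ⟩ : ∃ κ : ℝ, κ = K₀ - c₁ / j' := ⟨_, rfl⟩
        have hκ0 : 0 ≤ κ := by
          have := hfrac j' hj'1
          rw [hκ, hK₀]
          linarith
        obtain ⟨A, E, hA, hG, hA'⟩ := hStep S ar har V R _ _ (2 ^ (2 * j)) (2 ^ ((r + 1) * (2 * j))) (4 ^ (2 * j))
          Nat.one_le_two_pow horb n1 n2 n3
        have hp := hPeel S ar har V R _ _ _ _ (j ^ 2) (Nat.one_le_pow _ _ hj1) hNB A E hG hA' n4 n5 κ hκ0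
          (by
            intro A' hAA ho
            rw [hEq V c e (AuG R) A', ← hAu S ar V _ R _ Subtype.val_injective]
            have h1 := hP (Σ s : S, (Fin (ar s) → Option {a : V // a ∉ Set.range (fun x : {v : V // v ∉ A'} => x.1)}))
              (fun s => ar s.1) (fun s => har s.1) {v : V // v ∉ A'} (Rel R (fun x : {v : V // v ∉ A'} => x.1))
              (hNo S ar V _ R c a e hNB _ Subtype.val_injective)
              (fun x => (hOr S ar V R A' x).trans ((ho x.1 x.2).trans hs'))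
            have h2 : (Fintype.card {v : V // v ∉ A'} : ℝ) = Fintype.card V - A'.card := by
              have h3 : Fintype.card {v : V // v ∉ A'} + A'.card = Fintype.card V := by
                rw [Fintype.card_subtype, Finset.filter_not, Finset.filter_mem_eq_inter, Finset.univ_inter,
                  ← Finset.compl_eq_univ_sdiff, Finset.card_compl]
                have := Finset.card_le_univ A'
                omega
              rw [← h3]
              push_cast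
              ring
            rw [h2, ← hκ] at h1
            exact h1)
          (by
            intro t w hw ht
            rw [← hAu S ar V _ R w hw]
            have h1 := hP (Σ s : S, (Fin (ar s) → Option {a : V // a ∉ Set.range w}))
              (fun s => ar s.1) (fun s => har s.1) (Fin t) (Rel R w) (hNo S ar V _ R c a e hNB w hw)
              (fun x => by
                refine (Finset.card_le_univ _).trans ?_
                rw [Fintype.card_fin]
                refine ht.trans (le_trans ?_ hs')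
                rw [show (4 : ℕ) = 2 ^ 2 by norm_num, ← pow_mul]
                apply Nat.pow_le_pow_right (by norm_num)
                calc 2 * (2 * j) = 4 * j := by ring
                  _ ≤ j * j := Nat.mul_le_mul_right _ (by omega)
                  _ = 1 * j ^ 2 := by ring
                  _ ≤ C * j ^ 2 := Nat.mul_le_mul_right _ hC1)
            rw [Fintype.card_fin, ← hκ] at h1
            exact h1)
        have hfx := fixlog14 hE hF c e (AuG R) A horb
        -- the first summand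
        obtain ⟨n, hn⟩ : ∃ n : ℝ, n = (Fintype.card V : ℝ) := ⟨_, rfl⟩
        have hn0 : 0 ≤ n := by rw [hn]; positivity
        have hjr : (1 : ℝ) ≤ j := by exact_mod_cast hj1
        have hj2pos : (0 : ℝ) < (j : ℝ) ^ 2 := by positivity
        have h2j : ((j : ℝ)) ^ 2 ≤ 2 ^ j := by
          have := sq_le14 (j := j) (by omega)
          exact_mod_cast this
        have hAr : (2 : ℝ) ^ (2 * j) * (A.card : ℝ) ≤ ((r * (r + 3) + 2 : ℕ) : ℝ) * n := by
          rw [hn]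
          exact_mod_cast hA
        have hfirst : (A.card : ℝ) * ((((2 ^ j : ℕ) : ℝ) + c * e) * Real.log 2) ≤ b / j ^ 2 * n := by
          have h1 : (((2 ^ j : ℕ) : ℝ) + c * e) * Real.log 2 ≤ 2 ^ j * (1 + c * e) := by
            have h3 : (1 : ℝ) ≤ 2 ^ j := one_le_pow₀ (by norm_num)
            have h4 : (0 : ℝ) ≤ (c : ℝ) * e := by positivity
            push_cast
            calc ((2 : ℝ) ^ j + c * e) * Real.log 2 ≤ ((2 : ℝ) ^ j + c * e) * 1 := by
                  apply mul_le_mul_of_nonneg_left hlog21 (by positivity)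
              _ ≤ 2 ^ j * (1 + c * e) := by nlinarith
          have h2 : (A.card : ℝ) * 2 ^ j ≤ ((r * (r + 3) + 2 : ℕ) : ℝ) * n / 2 ^ j := by
            rw [le_div_iff₀ (by positivity)]
            calc (A.card : ℝ) * 2 ^ j * 2 ^ j = 2 ^ (2 * j) * A.card := by ring
              _ ≤ _ := hAr
          calc (A.card : ℝ) * ((((2 ^ j : ℕ) : ℝ) + c * e) * Real.log 2) ≤ A.card * (2 ^ j * (1 + c * e)) :=
                mul_le_mul_of_nonneg_left h1 (by positivity)
            _ = (A.card * 2 ^ j) * (1 + c * e) := by ring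
            _ ≤ (((r * (r + 3) + 2 : ℕ) : ℝ) * n / 2 ^ j) * (1 + c * e) :=
                mul_le_mul_of_nonneg_right h2 (by positivity)
            _ = b * n / 2 ^ j := by rw [hb]; ring
            _ ≤ b * n / j ^ 2 := div_le_div_of_nonneg_left (by positivity) hj2pos h2j
            _ = b / j ^ 2 * n := by ring
        have hsecond : Real.log (FA c e (AuG R) A) ≤ (κ + Real.log (a * 4 ^ e) / j ^ 2) * n := by
          refine hp.trans ?_
          push_cast
          rw [← hn]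
          apply mul_le_mul_of_nonneg_left _ (by positivity)
          have : (0 : ℝ) ≤ A.card := by positivity
          linarith
        have hkey : b / j ^ 2 + (κ + Real.log (a * 4 ^ e) / j ^ 2) ≤ K₀ - c₁ / j := by
          have h1 : b / j ^ 2 + Real.log (a * 4 ^ e) / j ^ 2 = c₁ / j ^ 2 := by rw [hc₁]; ring
          have h2 : c₁ / (j : ℝ) ^ 2 ≤ c₁ / j := by
            apply div_le_div_of_nonneg_left hc0 (by positivity)
            nlinarith
          have h3 : 2 * (c₁ / j) ≤ c₁ / j' := by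
            have h4 : (0 : ℝ) < j' := by exact_mod_cast hj'1
            rw [le_div_iff₀ h4]
            have h5 : 2 * (j' : ℝ) ≤ j := by exact_mod_cast hj'2
            have h6 : (0 : ℝ) < j := by positivity
            calc 2 * (c₁ / j) * j' = (c₁ / j) * (2 * j') := by ring
              _ ≤ (c₁ / j) * j := mul_le_mul_of_nonneg_left h5 (by positivity)
              _ = c₁ := by field_simp
          rw [hκ]
          linarith
        calc Real.log (Fp c e (AuG R)) ≤ b / j ^ 2 * n + (κ + Real.log (a * 4 ^ e) / j ^ 2) * n :=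
              hfx.trans (add_le_add hfirst hsecond)
          _ = (b / j ^ 2 + (κ + Real.log (a * 4 ^ e) / j ^ 2)) * n := by ring
          _ ≤ (K₀ - c₁ / j) * n := mul_le_mul_of_nonneg_right hkey hn0
          _ = _ := by rw [hn]
      · -- the base
        have h1 := base14 hE hF c e (AuG R) (k := 2 ^ j₁) (fun x => (horb x).trans
          (Nat.pow_le_pow_right (by norm_num) (Nat.pow_le_pow_right (by norm_num) hj)))
        refine h1.trans (mul_le_mul_of_nonneg_right ?_ (by positivity))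
        have := hfrac j hj1
        rw [hK₀, hK₁]
        linarith
  -- the end
  obtain ⟨K, hK⟩ := exists_nat_ge (Real.exp K₀)
  refine ⟨K, fun S ar har n R hNB => ?_⟩
  have h1 := main (n + 1) (by omega) S ar har (Fin n) R hNB (fun x => by
    refine (Finset.card_le_univ _).trans ?_
    rw [Fintype.card_fin]
    calc n ≤ 2 ^ n := Nat.lt_two_pow_self.le
      _ ≤ 2 ^ 2 ^ (n + 1) := Nat.pow_le_pow_right (by norm_num)
          ((Nat.lt_two_pow_self (n := n)).le.trans (Nat.pow_le_pow_right (by norm_num) (by omega))))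
  rw [Fintype.card_fin] at h1
  have h2 : Nat.card (AuG R) ≤ Fp c e (AuG R) := by
    unfold Fp
    exact Nat.le_mul_of_pos_right _ (pow_pos (oc_pos c (AuG R)) e)
  have h3 : Real.log (Fp c e (AuG R)) ≤ K₀ * n := by
    refine h1.trans (mul_le_mul_of_nonneg_right ?_ (by positivity))
    have : 0 ≤ c₁ / ((n + 1 : ℕ) : ℝ) := by positivity
    linarith
  have h4 : (0 : ℝ) < Fp c e (AuG R) := by exact_mod_cast Fp_pos14 c e (AuG R)
  have h5 : (Fp c e (AuG R) : ℝ) ≤ (K : ℝ) ^ n := by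
    calc (Fp c e (AuG R) : ℝ) = Real.exp (Real.log (Fp c e (AuG R))) := (Real.exp_log h4).symm
      _ ≤ Real.exp (K₀ * n) := Real.exp_le_exp.2 h3
      _ = Real.exp K₀ ^ n := by rw [mul_comm, Real.exp_nat_mul]
      _ ≤ _ := pow_le_pow_left₀ (Real.exp_pos _).le hK n
  have h6 : Fp c e (AuG R) ≤ K ^ n := by exact_mod_cast h5
  exact h2.trans h6

end Pool.Agent.Helper38.MS
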